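import Mathlib

set_option autoImplicit false

namespace Pool.Agent.Helper150.Cub

open MeasureTheory

noncomputable section

/-- The fundamental square `[0, 2π)²` of the torus. -/
def sq : Set (ℝ × ℝ) := Set.Ico 0 (2 * Real.pi) ×ˢ Set.Ico 0 (2 * Real.pi)

/-- `2π`-periodicity in each of the two variables. -/
def Periodic2 {E : Type*} (φ : ℝ × ℝ → E) : Prop :=
  ∀ x y : ℝ, φ (x + 2 * Real.pi, y) = φ (x, y) ∧ φ (x, y + 2 * Real.pi) = φ (x, y)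

/-- Normalised integral `(2π)⁻² ∫_{[0,2π)²} f`. -/
def avg {E : Type*} [NormedAddCommGroup E] [NormedSpace ℝ E] (f : ℝ × ℝ → E) : E :=
  ((2 * Real.pi) ^ 2)⁻¹ • ∫ x in sq, f x

/-- The univariate kernel `F_r(x, α) = 1 + 2 ∑_{k ≥ 1} k^{-r} cos(kx - απ/2)`. -/
def F1 (r α x : ℝ) : ℝ :=
  1 + 2 * ∑' k : ℕ, ((k:ℝ) + 1) ^ (-r) * Real.cos (((k:ℝ) + 1) * x - α * Real.pi / 2)

/-- The bivariate kernel. -/
def F2 (r α : ℝ) (x : ℝ × ℝ) : ℝ := F1 r α x.1 * F1 r α x.2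

/-- Convolution with respect to the normalised measure. -/
def conv {𝕜 : Type*} [RCLike 𝕜] (φ g : ℝ × ℝ → 𝕜) (x : ℝ × ℝ) : 𝕜 := avg (fun y => φ (x - y) * g y)

/-- The class `W^r_{1,α}` of functions `φ * F_r(·,α)` with `‖φ‖₁ ≤ 1`. -/
def W (𝕜 : Type*) [RCLike 𝕜] (r α : ℝ) : Set (ℝ × ℝ → 𝕜) :=
  {f | ∃ φ : ℝ × ℝ → 𝕜, Periodic2 φ ∧ IntegrableOn φ sq ∧ avg (fun x => ‖φ x‖) ≤ 1 ∧
    f = conv φ (fun x => ((F2 r α x : ℝ) : 𝕜))}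

/-- Error on the class `S` of the cubature formula with weights `w` and nodes `ξ`. -/
def cubErr {𝕜 : Type*} [RCLike 𝕜] (S : Set (ℝ × ℝ → 𝕜)) {m : ℕ} (w : Fin m → 𝕜) (ξ : Fin m → ℝ × ℝ) : ENNReal :=
  ⨆ f ∈ S, ENNReal.ofReal ‖∑ μ, w μ * f (ξ μ) - avg f‖

/-- Optimal error of cubature formulas with `m` nodes (arbitrary nodes and weights). -/
def kappa {𝕜 : Type*} [RCLike 𝕜] (m : ℕ) (S : Set (ℝ × ℝ → 𝕜)) : ENNReal :=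
  ⨅ (w : Fin m → 𝕜) (ξ : Fin m → ℝ × ℝ), cubErr S w ξ

end

end Pool.Agent.Helper150.Cub
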