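import Mathlib
import Pool.Agent.Helper150.Cub.Defs

set_option autoImplicit false

namespace Pool.Agent.Helper150.Cub

open MeasureTheory

noncomputable section

/-- the terms of the kernel series -/
def kt (r α : ℝ) (k : ℕ) (x : ℝ) : ℝ := ((k:ℝ) + 1) ^ (-r) * Real.cos (((k:ℝ) + 1) * x - α * Real.pi / 2)

lemma F1_eq (r α x : ℝ) : F1 r α x = 1 + 2 * ∑' k : ℕ, kt r α k x := rfl

lemma summable_base {r : ℝ} (hr : 1 < r) : Summable (fun k : ℕ => ((k:ℝ) + 1) ^ (-r)) := by
  have h := (summable_nat_add_iff 1).mpr (Real.summable_nat_rpow.mpr (show -r < -1 by linarith))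
  refine h.congr ?_
  intro k
  push_cast
  rfl

lemma kt_abs (r α : ℝ) (k : ℕ) (x : ℝ) : ‖kt r α k x‖ ≤ ((k:ℝ) + 1) ^ (-r) := by
  unfold kt
  rw [norm_mul, Real.norm_eq_abs, Real.norm_eq_abs, abs_of_nonneg (by positivity)]
  calc ((k:ℝ) + 1) ^ (-r) * |Real.cos (((k:ℝ) + 1) * x - α * Real.pi / 2)| ≤ ((k:ℝ) + 1) ^ (-r) * 1 := by
        gcongr
        exact Real.abs_cos_le_one _
    _ = _ := mul_one _

lemma kt_summable {r : ℝ} (hr : 1 < r) (α x : ℝ) : Summable (fun k => kt r α k x) :=
  Summable.of_norm_bounded (summable_base hr) (fun k => kt_abs r α k x)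

lemma kt_continuous (r α : ℝ) (k : ℕ) : Continuous (kt r α k) := by
  unfold kt
  fun_prop

lemma F1_continuous {r : ℝ} (hr : 1 < r) (α : ℝ) : Continuous (F1 r α) := by
  have : Continuous (fun x => ∑' k : ℕ, kt r α k x) :=
    continuous_tsum (fun k => kt_continuous r α k) (summable_base hr) (fun k x => kt_abs r α k x)
  exact continuous_const.add (continuous_const.mul this)

lemma F1_periodic (r α x : ℝ) : F1 r α (x + 2 * Real.pi) = F1 r α x := by
  rw [F1_eq, F1_eq]
  congr 3
  ext k
  unfold kt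
  congr 1
  have : ((k:ℝ) + 1) * (x + 2 * Real.pi) - α * Real.pi / 2
      = (((k:ℝ) + 1) * x - α * Real.pi / 2) + ((k+1 : ℕ):ℝ) * (2 * Real.pi) := by push_cast; ring
  rw [this, Real.cos_add_nat_mul_two_pi]

lemma kt_integral (r α : ℝ) (k : ℕ) : ∫ x in (0:ℝ)..(2 * Real.pi), kt r α k x = 0 := by
  unfold kt
  rw [intervalIntegral.integral_const_mul]
  have hk : ((k:ℝ)+1) ≠ 0 := by positivity
  have hd : ∀ x ∈ Set.uIcc (0:ℝ) (2 * Real.pi),
      HasDerivAt (fun x => Real.sin (((k:ℝ) + 1) * x - α * Real.pi / 2) / ((k:ℝ)+1))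
      (Real.cos (((k:ℝ) + 1) * x - α * Real.pi / 2)) x := by
    intro x _
    have h1 : HasDerivAt (fun x : ℝ => ((k:ℝ) + 1) * x - α * Real.pi / 2) ((k:ℝ)+1) x := by
      simpa using ((hasDerivAt_id x).const_mul ((k:ℝ)+1)).sub_const (α * Real.pi / 2)
    have h2 := (h1.sin).div_const ((k:ℝ)+1)
    rw [mul_div_cancel_right₀ _ hk] at h2
    exact h2
  rw [intervalIntegral.integral_eq_sub_of_hasDerivAt hd (by
    apply Continuous.intervalIntegrable; fun_prop)]
  have : ((k:ℝ) + 1) * (2 * Real.pi) - α * Real.pi / 2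
      = (((k:ℝ) + 1) * 0 - α * Real.pi / 2) + ((k+1 : ℕ):ℝ) * (2 * Real.pi) := by push_cast; ring
  rw [this, Real.sin_add_nat_mul_two_pi]
  simp

lemma F1_integral {r : ℝ} (hr : 1 < r) (α : ℝ) : ∫ x in (0:ℝ)..(2 * Real.pi), F1 r α x = 2 * Real.pi := by
  have hpi := Real.pi_pos
  have h1 : ∫ x in (0:ℝ)..(2 * Real.pi), ∑' k : ℕ, kt r α k x = 0 := by
    rw [intervalIntegral.integral_of_le (by positivity)]
    rw [← integral_tsum_of_summable_integral_norm]
    · have : ∀ k, ∫ x in Set.Ioc 0 (2 * Real.pi), kt r α k x = 0 := by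
        intro k
        rw [← intervalIntegral.integral_of_le (by positivity)]
        exact kt_integral r α k
      simp [this]
    · intro k
      exact ((kt_continuous r α k).integrableOn_Icc).mono_set Set.Ioc_subset_Icc_self
    · refine Summable.of_nonneg_of_le (fun k => integral_nonneg (fun x => norm_nonneg _)) (fun k => ?_)
        ((summable_base hr).mul_left (2 * Real.pi))
      calc ∫ a in Set.Ioc 0 (2 * Real.pi), ‖kt r α k a‖ ≤ ∫ a in Set.Ioc 0 (2 * Real.pi), ((k:ℝ) + 1) ^ (-r) := by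
            apply integral_mono_of_nonneg
            · exact Filter.Eventually.of_forall (fun x => norm_nonneg _)
            · exact integrable_const _
            · exact Filter.Eventually.of_forall (fun x => kt_abs r α k x)
        _ = 2 * Real.pi * ((k:ℝ) + 1) ^ (-r) := by
            rw [setIntegral_const, measureReal_def, Real.volume_Ioc, ENNReal.toReal_ofReal (by linarith)]
            simp
  have h2 : ∀ x, F1 r α x = 1 + 2 * ∑' k : ℕ, kt r α k x := fun x => F1_eq r α x
  simp only [h2]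
  rw [intervalIntegral.integral_add, intervalIntegral.integral_const_mul, h1]
  · simp
  · exact intervalIntegrable_const
  · apply Continuous.intervalIntegrable
    exact continuous_const.mul (continuous_tsum (fun k => kt_continuous r α k) (summable_base hr) (fun k x => kt_abs r α k x))

end

end Pool.Agent.Helper150.Cub
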