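import Mathlib
import Pool.Agent.Helper150.Cub.KerF
import Pool.Agent.Helper150.Walsh.Pair

set_option autoImplicit false

namespace Pool.Agent.Helper150.Cub

open MeasureTheory Pool.Agent.Helper150.Walsh

noncomputable section

/-- real Bernoulli polynomial -/
def bp (r : ℕ) : Polynomial ℝ := (Polynomial.bernoulli r).map (algebraMap ℚ ℝ)

lemma bp_coeff (r : ℕ) : (bp r).coeff r = 1 := by
  unfold bp
  rw [Polynomial.coeff_map, Polynomial.coeff_bernoulli]
  simp

lemma bp_natDegree (r : ℕ) : (bp r).natDegree = r := by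
  apply le_antisymm
  · rw [Polynomial.natDegree_le_iff_coeff_eq_zero]
    intro N hN
    unfold bp
    rw [Polynomial.coeff_map, Polynomial.coeff_bernoulli, if_neg (by omega)]
    simp
  · apply Polynomial.le_natDegree_of_ne_zero
    rw [bp_coeff]; exact one_ne_zero

lemma bp_lead (r : ℕ) : (bp r).leadingCoeff = 1 := by
  rw [Polynomial.leadingCoeff, bp_natDegree, bp_coeff]

lemma bp_comp (r : ℕ) (a : ℝ) : ((bp r).comp (Polynomial.C a - Polynomial.X)).natDegree = r ∧
    ((bp r).comp (Polynomial.C a - Polynomial.X)).coeff r = (-1)^r := by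
  have hq : (Polynomial.C a - Polynomial.X : Polynomial ℝ) = -(Polynomial.X - Polynomial.C a) := by ring
  have h1 : (Polynomial.C a - Polynomial.X : Polynomial ℝ).natDegree = 1 := by
    rw [hq, Polynomial.natDegree_neg, Polynomial.natDegree_X_sub_C]
  have h2 : (Polynomial.C a - Polynomial.X : Polynomial ℝ).leadingCoeff = -1 := by
    rw [hq, Polynomial.leadingCoeff_neg, Polynomial.leadingCoeff_X_sub_C]
  have h3 : ((bp r).comp (Polynomial.C a - Polynomial.X)).natDegree = r := by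
    rw [Polynomial.natDegree_comp, h1, bp_natDegree, mul_one]
  refine ⟨h3, ?_⟩
  have h4 := Polynomial.leadingCoeff_comp (p := bp r) (q := Polynomial.C a - Polynomial.X) (by rw [h1]; norm_num)
  rw [Polynomial.leadingCoeff, h3, bp_lead, bp_natDegree, h2, one_mul] at h4
  exact h4

/-- For integer `r ≥ 2` and `α ≡ r` mod 2 the kernel is a Bernoulli polynomial. -/
theorem F1_bern (r : ℕ) (hr : 2 ≤ r) (α : ℝ) (k : ℤ) (hα : α = r + 2 * k) :
    ∃ c : ℝ, c ≠ 0 ∧ ∀ x ∈ Set.Icc (0:ℝ) 1, F1 r α (2 * Real.pi * x) = 1 + c * (bp r).eval x := by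
  have hpi := Real.pi_pos
  rcases Nat.even_or_odd' r with ⟨l, hl | hl⟩
  · have hl0 : l ≠ 0 := by omega
    refine ⟨2 * ((-1)^(l:ℤ) * (-1)^k * ((-1 : ℝ) ^ (l + 1) * (2 * Real.pi) ^ (2 * l) / 2 / (2 * l).factorial)), ?_, ?_⟩
    · have h1 : ((-1:ℝ))^(l:ℤ) ≠ 0 := zpow_ne_zero _ (by norm_num)
      have h2 : ((-1:ℝ))^k ≠ 0 := zpow_ne_zero _ (by norm_num)
      have h3 : ((-1:ℝ))^(l+1) ≠ 0 := pow_ne_zero _ (by norm_num)
      positivity
    · intro x hx
      have hs := hasSum_one_div_nat_pow_mul_cos hl0 hx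
      have hs1 := (hasSum_nat_add_iff' 1).mpr hs
      simp only [Finset.range_one, Finset.sum_singleton] at hs1
      have hz : (1:ℝ) / ((0:ℕ):ℝ) ^ (2 * l) * Real.cos (2 * Real.pi * ((0:ℕ):ℝ) * x) = 0 := by
        rw [Nat.cast_zero, zero_pow (by omega)]; simp
      rw [hz, sub_zero] at hs1
      rw [F1_eq]
      have ht : ∀ n : ℕ, kt r α n (2 * Real.pi * x) = ((-1)^(l:ℤ) * (-1)^k) *
          (1 / ((n+1 : ℕ) : ℝ) ^ (2 * l) * Real.cos (2 * Real.pi * ((n+1:ℕ):ℝ) * x)) := by
        intro n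
        unfold kt
        have e1 : ((n:ℝ) + 1) * (2 * Real.pi * x) - α * Real.pi / 2
            = 2 * Real.pi * ((n+1:ℕ):ℝ) * x - ((l:ℤ) + k : ℤ) * Real.pi := by
          rw [hα, hl]; push_cast; ring
        rw [e1, Real.cos_sub_int_mul_pi, zpow_add₀ (by norm_num)]
        have e2 : ((n:ℝ) + 1) ^ (-(r:ℝ)) = 1 / ((n+1 : ℕ) : ℝ) ^ (2 * l) := by
          rw [Real.rpow_neg (by positivity), Real.rpow_natCast, hl]
          push_cast
          rw [one_div]
        rw [e2]; ring
      simp only [ht]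
      rw [tsum_mul_left, hs1.tsum_eq]
      unfold bp
      rw [hl]
      push_cast
      ring
  · have hl0 : l ≠ 0 := by omega
    refine ⟨2 * ((-1)^(l:ℤ) * (-1)^k * ((-1 : ℝ) ^ (l + 1) * (2 * Real.pi) ^ (2 * l + 1) / 2 / (2 * l + 1).factorial)), ?_, ?_⟩
    · have h1 : ((-1:ℝ))^(l:ℤ) ≠ 0 := zpow_ne_zero _ (by norm_num)
      have h2 : ((-1:ℝ))^k ≠ 0 := zpow_ne_zero _ (by norm_num)
      have h3 : ((-1:ℝ))^(l+1) ≠ 0 := pow_ne_zero _ (by norm_num)
      positivity
    · intro x hx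
      have hs := hasSum_one_div_nat_pow_mul_sin hl0 hx
      have hs1 := (hasSum_nat_add_iff' 1).mpr hs
      simp only [Finset.range_one, Finset.sum_singleton] at hs1
      have hz : (1:ℝ) / ((0:ℕ):ℝ) ^ (2 * l + 1) * Real.sin (2 * Real.pi * ((0:ℕ):ℝ) * x) = 0 := by
        rw [Nat.cast_zero, zero_pow (by omega)]; simp
      rw [hz, sub_zero] at hs1
      rw [F1_eq]
      have ht : ∀ n : ℕ, kt r α n (2 * Real.pi * x) = ((-1)^(l:ℤ) * (-1)^k) *
          (1 / ((n+1 : ℕ) : ℝ) ^ (2 * l + 1) * Real.sin (2 * Real.pi * ((n+1:ℕ):ℝ) * x)) := by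
        intro n
        unfold kt
        have e1 : ((n:ℝ) + 1) * (2 * Real.pi * x) - α * Real.pi / 2
            = (2 * Real.pi * ((n+1:ℕ):ℝ) * x - Real.pi / 2) - ((l:ℤ) + k : ℤ) * Real.pi := by
          rw [hα, hl]; push_cast; ring
        rw [e1, Real.cos_sub_int_mul_pi, zpow_add₀ (by norm_num), Real.cos_sub_pi_div_two]
        have e2 : ((n:ℝ) + 1) ^ (-(r:ℝ)) = 1 / ((n+1 : ℕ) : ℝ) ^ (2 * l + 1) := by
          rw [Real.rpow_neg (by positivity), Real.rpow_natCast, hl]
          push_cast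
          rw [one_div]
        rw [e2]; ring
      simp only [ht]
      rw [tsum_mul_left, hs1.tsum_eq]
      unfold bp
      rw [hl]
      push_cast
      ring

/-- properties of univariate kernels used in the argument -/
structure GoodK (r : ℕ) (c u : ℝ) (g : ℝ → ℝ) : Prop where
  int : Integrable g mu1
  one : ∫ t, g t ∂mu1 = 1
  dy : ∀ A i : ℕ, i < 2^A → i ≠ ⌊(2:ℝ)^A * u⌋₊ → ∫ t in dy A i, g t * tm r A t = c / (2^A)^(r+1)

lemma F1_shift_integral {r : ℝ} (hr : 1 < r) (α u : ℝ) :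
    ∫ t in (0:ℝ)..1, F1 r α (2 * Real.pi * (u - t)) = 1 := by
  have hpi := Real.pi_pos
  have e1 : ∀ t : ℝ, 2 * Real.pi * (u - t) = 2 * Real.pi * u - 2 * Real.pi * t := fun t => by ring
  simp only [e1]
  rw [intervalIntegral.integral_comp_sub_mul (fun x => F1 r α x) (by positivity)]
  have hp : Function.Periodic (F1 r α) (2 * Real.pi) := F1_periodic r α
  have h2 := hp.intervalIntegral_add_eq (2 * Real.pi * u - 2 * Real.pi * 1) 0
  have e2 : 2 * Real.pi * u - 2 * Real.pi * 1 + 2 * Real.pi = 2 * Real.pi * u - 2 * Real.pi * 0 := by ring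
  rw [e2, zero_add, F1_integral hr α] at h2
  rw [h2]
  simp
  field_simp

lemma goodK_F (r : ℕ) (hr : 2 ≤ r) (α : ℝ) (k : ℤ) (hα : α = r + 2 * k) :
    ∃ c : ℝ, c ≠ 0 ∧ ∀ u ∈ Set.Ico (0:ℝ) 1, GoodK r c u (fun t => F1 r α (2 * Real.pi * (u - t))) := by
  obtain ⟨c, hc, hF⟩ := F1_bern r hr α k hα
  have hr1 : (1:ℝ) < (r:ℝ) := by exact_mod_cast hr
  have hcont : ∀ u : ℝ, Continuous (fun t => F1 r α (2 * Real.pi * (u - t))) := by
    intro u
    exact (F1_continuous hr1 α).comp (by fun_prop)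
  refine ⟨c * (-1)^r * kap r, by
    have := kap_ne_zero r
    have h2 : ((-1:ℝ))^r ≠ 0 := pow_ne_zero _ (by norm_num)
    positivity, ?_⟩
  intro u hu
  refine ⟨?_, ?_, ?_⟩
  · unfold mu1
    exact ((hcont u).integrableOn_Icc (a := 0) (b := 1)).mono_set Set.Ico_subset_Icc_self
  · unfold mu1
    rw [integral_Ico_eq_integral_Ioc, ← intervalIntegral.integral_of_le zero_le_one]
    exact F1_shift_integral hr1 α u
  · intro A i hi hiu
    have key : ∀ a : ℝ, (∀ t ∈ dy A i, F1 r α (2 * Real.pi * (u - t)) = 1 + c * (bp r).eval (a - t)) →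
        ∫ t in dy A i, F1 r α (2 * Real.pi * (u - t)) * tm r A t = c * (-1)^r * kap r / (2^A)^(r+1) := by
      intro a ha
      have e1 : ∀ t ∈ dy A i, F1 r α (2 * Real.pi * (u - t)) * tm r A t
          = (Polynomial.C 1 + Polynomial.C c * (bp r).comp (Polynomial.C a - Polynomial.X)).eval t * tm r A t := by
        intro t ht
        rw [ha t ht]
        simp only [Polynomial.eval_add, Polynomial.eval_mul, Polynomial.eval_C, Polynomial.eval_comp,
          Polynomial.eval_sub, Polynomial.eval_X]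
      rw [setIntegral_congr_fun (dy_meas A i) e1, moment r A i]
      · rw [Polynomial.coeff_add, Polynomial.coeff_C_of_ne_zero (by omega), Polynomial.coeff_C_mul,
          (bp_comp r a).2, zero_add]
      · refine (Polynomial.natDegree_add_le _ _).trans ?_
        rw [Polynomial.natDegree_C]
        refine max_le (Nat.zero_le _) ?_
        refine (Polynomial.natDegree_C_mul_le _ _).trans ?_
        rw [(bp_comp r a).1]
    rcases Nat.lt_or_gt_of_ne hiu with h | h
    · apply key u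
      intro t ht
      have h0 := dy_nonneg ht
      rw [mem_dy_iff h0] at ht
      have htu : t < u := by
        by_contra hax
        push Not at hax
        have : ⌊(2:ℝ)^A * u⌋₊ ≤ ⌊(2:ℝ)^A * t⌋₊ := Nat.floor_le_floor (by gcongr)
        omega
      exact hF (u - t) ⟨by linarith, by linarith [hu.2]⟩
    · apply key (u + 1)
      intro t ht
      have ht1 := dy_sub A i hi ht
      have h0 := dy_nonneg ht
      rw [mem_dy_iff h0] at ht
      have htu : u < t := by
        by_contra hax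
        push Not at hax
        have : ⌊(2:ℝ)^A * t⌋₊ ≤ ⌊(2:ℝ)^A * u⌋₊ := Nat.floor_le_floor (by gcongr)
        omega
      rw [← F1_periodic]
      have e2 : 2 * Real.pi * (u - t) + 2 * Real.pi = 2 * Real.pi * (u + 1 - t) := by ring
      rw [e2]
      exact hF (u + 1 - t) ⟨by linarith [ht1.2, hu.1], by linarith⟩

end

end Pool.Agent.Helper150.Cub
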