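import Mathlib
import Pool.Agent.Helper150.Cub.KerF
import Pool.Agent.Helper150.Walsh.Pair

set_option autoImplicit false

namespace Pool.Agent.Helper150.Cub

open MeasureTheory Pool.Agent.Helper150.Walsh
open scoped Pointwise

noncomputable section

/-- periodisation of a function on the unit interval -/
def per (f : ℝ → ℝ) (x : ℝ) : ℝ := f (Int.fract (x / (2 * Real.pi)))

def per2 (Φ : ℝ × ℝ → ℝ) (x : ℝ × ℝ) : ℝ :=
  Φ (Int.fract (x.1 / (2 * Real.pi)), Int.fract (x.2 / (2 * Real.pi)))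

lemma two_pi_pos : 0 < 2 * Real.pi := by positivity

lemma per_periodic (f : ℝ → ℝ) (x : ℝ) : per f (x + 2 * Real.pi) = per f x := by
  unfold per
  have h := two_pi_pos.ne'
  have : (x + 2 * Real.pi) / (2 * Real.pi) = x / (2 * Real.pi) + (1:ℤ) := by
    field_simp; push_cast; ring
  rw [this, Int.fract_add_intCast]

lemma per2_periodic (Φ : ℝ × ℝ → ℝ) : Periodic2 (per2 Φ) := by
  intro x y
  have h := two_pi_pos.ne'
  have h1 : ∀ x : ℝ, (x + 2 * Real.pi) / (2 * Real.pi) = x / (2 * Real.pi) + (1:ℤ) := by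
    intro x; field_simp; push_cast; ring
  unfold per2
  simp only [h1, Int.fract_add_intCast, and_self]

/-- one dimensional change of variables -/
lemma conv1 (f g : ℝ → ℝ) (hg : ∀ x, g (x + 2 * Real.pi) = g x) (ξ : ℝ) :
    ∫ y in Set.Ico 0 (2 * Real.pi), per f (ξ - y) * g y
      = (2 * Real.pi) * ∫ t, f t * g (2 * Real.pi * (Int.fract (ξ / (2 * Real.pi)) - t)) ∂mu1 := by
  have hpi := two_pi_pos
  rw [integral_Ico_eq_integral_Ioc, ← intervalIntegral.integral_of_le hpi.le]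
  -- substitution y = ξ - 2π t
  have h1 : ∫ t in (ξ/(2*Real.pi) - 1)..(ξ/(2*Real.pi)), per f (ξ - (ξ - 2*Real.pi*t)) * g (ξ - 2*Real.pi*t)
      = (2*Real.pi)⁻¹ • ∫ y in (0:ℝ)..(2*Real.pi), per f (ξ - y) * g y := by
    rw [intervalIntegral.integral_comp_sub_mul (fun y => per f (ξ - y) * g y) hpi.ne']
    congr 2
    · field_simp; ring
    · field_simp; ring
  have hper : Function.Periodic (fun t => per f (2*Real.pi*t) * g (ξ - 2*Real.pi*t)) 1 := by
    intro t
    simp only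
    have e1 : 2 * Real.pi * (t+1) = 2*Real.pi*t + 2*Real.pi := by ring
    have e2 : ξ - 2*Real.pi*t = (ξ - (2*Real.pi*t + 2*Real.pi)) + 2*Real.pi := by ring
    rw [e1, per_periodic, ← hg (ξ - (2*Real.pi*t + 2*Real.pi)), ← e2]
  have h2 : ∫ t in (ξ/(2*Real.pi) - 1)..(ξ/(2*Real.pi)), per f (ξ - (ξ - 2*Real.pi*t)) * g (ξ - 2*Real.pi*t)
      = ∫ t in (0:ℝ)..1, per f (2*Real.pi*t) * g (ξ - 2*Real.pi*t) := by
    have e3 : ∀ t, ξ - (ξ - 2*Real.pi*t) = 2*Real.pi*t := fun t => by ring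
    simp only [e3]
    have := hper.intervalIntegral_add_eq (ξ/(2*Real.pi) - 1) 0
    rw [zero_add] at this
    rw [← this]
    congr 1
    ring
  have h3 : ∫ t in (0:ℝ)..1, per f (2*Real.pi*t) * g (ξ - 2*Real.pi*t)
      = ∫ t, f t * g (2 * Real.pi * (Int.fract (ξ / (2 * Real.pi)) - t)) ∂mu1 := by
    rw [intervalIntegral.integral_of_le zero_le_one, ← integral_Ico_eq_integral_Ioc]
    unfold mu1
    apply setIntegral_congr_fun measurableSet_Ico
    intro t ht
    simp only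
    have e4 : per f (2*Real.pi*t) = f t := by
      unfold per
      have : 2*Real.pi*t/(2*Real.pi) = t := by field_simp
      rw [this, Int.fract_eq_self.mpr ⟨ht.1, ht.2⟩]
    rw [e4]
    congr 1
    have hgz : ∀ (x : ℝ) (k : ℤ), g (x + k * (2*Real.pi)) = g x := by
      intro x k
      have hp : Function.Periodic g (2*Real.pi) := hg
      exact hp.int_mul k x
    have e5 : ξ - 2*Real.pi*t = 2 * Real.pi * (Int.fract (ξ / (2 * Real.pi)) - t) + (⌊ξ / (2*Real.pi)⌋ : ℤ) * (2*Real.pi) := by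
      have := Int.floor_add_fract (ξ / (2*Real.pi))
      have h7 : ξ = 2*Real.pi * (ξ / (2*Real.pi)) := by field_simp
      rw [← this] at h7
      linarith
    rw [e5, hgz]
  rw [← h3, ← h2, h1, smul_eq_mul]
  field_simp

lemma sq_meas : MeasurableSet sq := measurableSet_Ico.prod measurableSet_Ico

lemma restrict_sq : (volume : Measure (ℝ × ℝ)).restrict sq
    = (volume.restrict (Set.Ico 0 (2*Real.pi))).prod (volume.restrict (Set.Ico 0 (2*Real.pi))) := by
  unfold sq
  rw [Measure.prod_restrict]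
  rfl

lemma mu1_prod : (volume : Measure (ℝ × ℝ)).restrict (Set.Ico 0 1 ×ˢ Set.Ico 0 1) = mu1.prod mu1 := by
  unfold mu1
  rw [Measure.prod_restrict]
  rfl

lemma avg_per2 (Φ : ℝ × ℝ → ℝ) : avg (per2 Φ) = ∫ z, Φ z ∂(mu1.prod mu1) := by
  have hpi := two_pi_pos
  unfold avg
  have h1 : ∫ x in sq, per2 Φ x = ∫ x in sq, Φ ((2*Real.pi)⁻¹ • x) := by
    apply setIntegral_congr_fun sq_meas
    intro x hx
    simp only
    unfold per2
    congr 1
    have hx1 : x.1 / (2*Real.pi) ∈ Set.Ico (0:ℝ) 1 := by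
      constructor
      · exact div_nonneg hx.1.1 hpi.le
      · rw [div_lt_one hpi]; exact hx.1.2
    have hx2 : x.2 / (2*Real.pi) ∈ Set.Ico (0:ℝ) 1 := by
      constructor
      · exact div_nonneg hx.2.1 hpi.le
      · rw [div_lt_one hpi]; exact hx.2.2
    rw [Int.fract_eq_self.mpr ⟨hx1.1, hx1.2⟩, Int.fract_eq_self.mpr ⟨hx2.1, hx2.2⟩]
    ext
    · simp [div_eq_inv_mul]
    · simp [div_eq_inv_mul]
  have hset : (2*Real.pi)⁻¹ • sq = Set.Ico (0:ℝ) 1 ×ˢ Set.Ico (0:ℝ) 1 := by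
    ext z
    rw [Set.mem_inv_smul_set_iff₀ hpi.ne']
    unfold sq
    simp only [Set.mem_prod, Prod.smul_fst, Prod.smul_snd, smul_eq_mul, Set.mem_Ico]
    constructor
    · rintro ⟨⟨h1, h2⟩, ⟨h3, h4⟩⟩
      refine ⟨⟨?_, ?_⟩, ⟨?_, ?_⟩⟩ <;> nlinarith
    · rintro ⟨⟨h1, h2⟩, ⟨h3, h4⟩⟩
      refine ⟨⟨?_, ?_⟩, ⟨?_, ?_⟩⟩ <;> nlinarith
  rw [h1, Measure.setIntegral_comp_smul_of_pos volume Φ sq (by positivity), hset, mu1_prod]
  have hf : Module.finrank ℝ (ℝ × ℝ) = 2 := by simp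
  rw [hf, ← mul_smul]
  have : ((2*Real.pi)^2)⁻¹ * (((2*Real.pi)⁻¹)^2)⁻¹ = 1 := by field_simp
  rw [this, one_smul]

lemma per_measurable {f : ℝ → ℝ} (hf : Measurable f) : Measurable (per f) := by
  unfold per
  exact hf.comp ((measurable_id.div_const _).fract)

lemma per2_measurable {Φ : ℝ × ℝ → ℝ} (hf : Measurable Φ) : Measurable (per2 Φ) := by
  unfold per2
  exact hf.comp (((measurable_fst.div_const _).fract).prodMk ((measurable_snd.div_const _).fract))

lemma F2_continuous {r : ℝ} (hr : 1 < r) (α : ℝ) : Continuous (F2 r α) := by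
  unfold F2
  exact ((F1_continuous hr α).comp continuous_fst).mul ((F1_continuous hr α).comp continuous_snd)

lemma sq_finite : (volume : Measure (ℝ × ℝ)) sq < ⊤ := by
  unfold sq
  rw [Measure.volume_eq_prod, Measure.prod_prod, Real.volume_Ico]
  exact ENNReal.mul_lt_top ENNReal.ofReal_lt_top ENNReal.ofReal_lt_top

lemma F2_integrable {r : ℝ} (hr : 1 < r) (α : ℝ) : IntegrableOn (F2 r α) sq := by
  have h : IntegrableOn (F2 r α) (Set.Icc 0 (2*Real.pi) ×ˢ Set.Icc 0 (2*Real.pi)) :=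
    (F2_continuous hr α).continuousOn.integrableOn_compact (isCompact_Icc.prod isCompact_Icc)
  exact h.mono_set (Set.prod_mono Set.Ico_subset_Icc_self Set.Ico_subset_Icc_self)

lemma conv_integrand {r : ℝ} (hr : 1 < r) (α : ℝ) {Φ : ℝ × ℝ → ℝ} (hΦ : Measurable Φ) {M : ℝ}
    (hM : ∀ z, |Φ z| ≤ M) (x : ℝ × ℝ) : IntegrableOn (fun y => per2 Φ (x - y) * F2 r α y) sq := by
  apply (F2_integrable hr α).bdd_mul (c := M)
  · exact ((per2_measurable hΦ).comp (measurable_const.sub measurable_id)).aestronglyMeasurable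
  · exact Filter.Eventually.of_forall (fun y => by rw [Real.norm_eq_abs]; exact hM _)

/-- periodic shift invariance in the plane -/
lemma shift_inv {Φ : ℝ × ℝ → ℝ} (hΦ : Measurable Φ) {M : ℝ} (hM : ∀ z, |Φ z| ≤ M) (y : ℝ × ℝ) :
    ∫ x in sq, per2 Φ (x - y) = ∫ x in sq, per2 Φ x := by
  have hpi := two_pi_pos
  have hfin : IsFiniteMeasure ((volume : Measure (ℝ × ℝ)).restrict sq) := ⟨by
    rw [Measure.restrict_apply_univ]; exact sq_finite⟩
  have i1 : ∀ y : ℝ × ℝ, Integrable (fun x => per2 Φ (x - y)) (volume.restrict sq) := by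
    intro y
    apply Integrable.of_bound (C := M)
    · exact ((per2_measurable hΦ).comp (measurable_id.sub measurable_const)).aestronglyMeasurable
    · exact Filter.Eventually.of_forall (fun x => by rw [Real.norm_eq_abs]; exact hM _)
  have i2 := i1 0
  simp only [sub_zero] at i2
  have hs : ∀ (h : ℝ → ℝ), (∀ x, h (x + 2*Real.pi) = h x) → ∀ a : ℝ,
      ∫ x in Set.Ico 0 (2*Real.pi), h (x - a) = ∫ x in Set.Ico 0 (2*Real.pi), h x := by
    intro h hh a
    rw [integral_Ico_eq_integral_Ioc, integral_Ico_eq_integral_Ioc, ← intervalIntegral.integral_of_le hpi.le,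
      ← intervalIntegral.integral_of_le hpi.le, intervalIntegral.integral_comp_sub_right (fun x => h x)]
    have hp : Function.Periodic h (2*Real.pi) := hh
    have := hp.intervalIntegral_add_eq (0 - a) 0
    rw [zero_add] at this
    rw [← this]
    congr 1
    ring
  have i1y := i1 y
  rw [restrict_sq] at i1y i2 ⊢
  rw [integral_prod _ i1y, integral_prod _ i2]
  have hper := per2_periodic Φ
  have e1 : ∀ x1 : ℝ, ∫ x2 in Set.Ico 0 (2*Real.pi), per2 Φ ((x1, x2) - y)
      = ∫ x2 in Set.Ico 0 (2*Real.pi), per2 Φ (x1 - y.1, x2) := by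
    intro x1
    exact hs (fun x2 => per2 Φ (x1 - y.1, x2)) (fun x2 => (hper (x1 - y.1) x2).2) y.2
  simp only [e1]
  exact hs (fun x1 => ∫ x2 in Set.Ico 0 (2*Real.pi), per2 Φ (x1, x2)) (fun x1 => by
    simp only [(hper x1 _).1]) y.1

lemma avg_conv {r : ℝ} (hr : 1 < r) (α : ℝ) {Φ : ℝ × ℝ → ℝ} (hΦ : Measurable Φ) {M : ℝ}
    (hM : ∀ z, |Φ z| ≤ M) : avg (conv (per2 Φ) (F2 r α)) = ∫ z, Φ z ∂(mu1.prod mu1) := by
  have hpi := two_pi_pos
  have hfin : IsFiniteMeasure ((volume : Measure (ℝ × ℝ)).restrict sq) := ⟨by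
    rw [Measure.restrict_apply_univ]; exact sq_finite⟩
  rw [← avg_per2]
  unfold conv avg
  congr 1
  simp only [smul_eq_mul]
  rw [integral_const_mul]
  have hint : Integrable (Function.uncurry (fun x y : ℝ × ℝ => per2 Φ (x - y) * F2 r α y))
      ((volume.restrict sq).prod (volume.restrict sq)) := by
    have h1 : Integrable (fun p : (ℝ × ℝ) × (ℝ × ℝ) => F2 r α p.2) ((volume.restrict sq).prod (volume.restrict sq)) :=
      (F2_integrable hr α).comp_snd (volume.restrict sq)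
    have h2 := h1.bdd_mul (c := M) (f := fun p : (ℝ × ℝ) × (ℝ × ℝ) => per2 Φ (p.1 - p.2))
      ((per2_measurable hΦ).comp (measurable_fst.sub measurable_snd)).aestronglyMeasurable
      (Filter.Eventually.of_forall (fun y => by rw [Real.norm_eq_abs]; exact hM _))
    exact h2
  rw [integral_integral_swap hint]
  have e1 : ∀ y : ℝ × ℝ, ∫ x in sq, per2 Φ (x - y) * F2 r α y = (∫ x in sq, per2 Φ x) * F2 r α y := by
    intro y
    rw [integral_mul_const, shift_inv hΦ hM y]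
  simp only [e1]
  rw [integral_const_mul]
  have hF : ∫ y in sq, F2 r α y = (2*Real.pi)^2 := by
    rw [restrict_sq]
    unfold F2
    rw [integral_prod_mul (fun x => F1 r α x) (fun y => F1 r α y)]
    have : ∫ x in Set.Ico 0 (2*Real.pi), F1 r α x = 2*Real.pi := by
      rw [integral_Ico_eq_integral_Ioc, ← intervalIntegral.integral_of_le hpi.le, F1_integral hr α]
    rw [this]; ring
  rw [hF]
  field_simp

/-- convolution of a product function -/
lemma conv_prod (r α : ℝ) (f g : ℝ → ℝ) (ξ : ℝ × ℝ) :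
    ((2 * Real.pi) ^ 2)⁻¹ * ∫ y in sq, (per f (ξ.1 - y.1) * per g (ξ.2 - y.2)) * F2 r α y
      = (∫ t, f t * F1 r α (2 * Real.pi * (Int.fract (ξ.1 / (2 * Real.pi)) - t)) ∂mu1)
        * (∫ t, g t * F1 r α (2 * Real.pi * (Int.fract (ξ.2 / (2 * Real.pi)) - t)) ∂mu1) := by
  have hpi := two_pi_pos
  have e1 : ∀ y : ℝ × ℝ, (per f (ξ.1 - y.1) * per g (ξ.2 - y.2)) * F2 r α y
      = (per f (ξ.1 - y.1) * F1 r α y.1) * (per g (ξ.2 - y.2) * F1 r α y.2) := by
    intro y; unfold F2; ring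
  simp only [e1]
  rw [restrict_sq, integral_prod_mul (fun y => per f (ξ.1 - y) * F1 r α y) (fun y => per g (ξ.2 - y) * F1 r α y),
    conv1 f (F1 r α) (F1_periodic r α) ξ.1, conv1 g (F1 r α) (F1_periodic r α) ξ.2]
  field_simp

end

end Pool.Agent.Helper150.Cub
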