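import Mathlib
import Pool.Agent.Helper150.Cub.Bern
import Pool.Agent.Helper150.Cub.Torus
import Pool.Agent.Helper150.Walsh.RieszO
import Pool.Agent.Helper150.Walsh.Main

set_option autoImplicit false

namespace Pool.Agent.Helper150.Cub

open MeasureTheory Finset Pool.Agent.Helper150.Walsh

noncomputable section

/-- a Thue-Morse block on one dyadic interval -/
def ai (r A i : ℕ) (x : ℝ) : ℝ := (dy A i).indicator (tm r A) x

def be (c : ℝ) (r A : ℕ) : ℝ := c / (2^A)^(r+1)

def fi (c : ℝ) (r A i : ℕ) (x : ℝ) : ℝ := ai r A i x - be c r A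

def psi (c : ℝ) (r A B : ℕ) (H : ℝ → ℝ → ℝ) (z : ℝ × ℝ) : ℝ :=
  ∑ i ∈ range (2^A), ∑ j ∈ range (2^B), H ((i:ℝ)/2^A) ((j:ℝ)/2^B) * (fi c r A i z.1 * fi c r B j z.2)

lemma ai_measurable (r A i : ℕ) : Measurable (ai r A i) := by
  unfold ai
  exact (tm_measurable r A).indicator (dy_meas A i)

lemma ai_abs (r A i : ℕ) (x : ℝ) : |ai r A i x| ≤ 1 := by
  unfold ai
  by_cases h : x ∈ dy A i
  · rw [Set.indicator_of_mem h, tm_abs]
  · rw [Set.indicator_of_notMem h]; simp

lemma fi_measurable (c : ℝ) (r A i : ℕ) : Measurable (fi c r A i) := by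
  unfold fi
  exact (ai_measurable r A i).sub_const _

lemma fi_abs (c : ℝ) (r A i : ℕ) (x : ℝ) : |fi c r A i x| ≤ 1 + |be c r A| := by
  unfold fi
  exact (abs_sub _ _).trans (by gcongr; exact ai_abs r A i x)

lemma ai_integrable (r A i : ℕ) : Integrable (ai r A i) mu1 := by
  apply Integrable.of_bound (C := 1) (ai_measurable r A i).aestronglyMeasurable
  exact Filter.Eventually.of_forall (fun x => by rw [Real.norm_eq_abs]; exact ai_abs r A i x)

lemma fi_integrable (c : ℝ) (r A i : ℕ) : Integrable (fi c r A i) mu1 := by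
  unfold fi
  exact (ai_integrable r A i).sub (integrable_const _)

lemma ai_int (r A i : ℕ) (hr : 1 ≤ r) (hi : i < 2^A) : ∫ t, ai r A i t ∂mu1 = 0 := by
  unfold ai
  rw [mu1_indicator A i hi, one_dy r A i hr]

lemma fi_int (c : ℝ) (r A i : ℕ) (hr : 1 ≤ r) (hi : i < 2^A) : ∫ t, fi c r A i t ∂mu1 = - be c r A := by
  unfold fi
  rw [integral_sub (ai_integrable r A i) (integrable_const _), ai_int r A i hr hi, integral_const]
  simp

lemma fi_K {r : ℕ} {c u : ℝ} {g : ℝ → ℝ} (hg : GoodK r c u g) (A i : ℕ) (hi : i < 2^A)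
    (hiu : i ≠ ⌊(2:ℝ)^A * u⌋₊) : ∫ t, fi c r A i t * g t ∂mu1 = 0 := by
  have h1 : Integrable (fun t => ai r A i t * g t) mu1 := by
    apply hg.int.bdd_mul (c := 1) (ai_measurable r A i).aestronglyMeasurable
    exact Filter.Eventually.of_forall (fun x => by rw [Real.norm_eq_abs]; exact ai_abs r A i x)
  have e1 : ∀ t, fi c r A i t * g t = ai r A i t * g t - be c r A * g t := by
    intro t; unfold fi; ring
  simp only [e1]
  rw [integral_sub h1 (hg.int.const_mul _), integral_const_mul, hg.one]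
  have e2 : ∀ t, ai r A i t * g t = (dy A i).indicator (fun t => g t * tm r A t) t := by
    intro t
    unfold ai
    by_cases h : t ∈ dy A i
    · rw [Set.indicator_of_mem h, Set.indicator_of_mem h]; ring
    · rw [Set.indicator_of_notMem h, Set.indicator_of_notMem h]; ring
  simp only [e2]
  rw [mu1_indicator A i hi, hg.dy A i hi hiu]
  unfold be
  ring

lemma psi_measurable (c : ℝ) (r A B : ℕ) (H : ℝ → ℝ → ℝ) : Measurable (psi c r A B H) := by
  unfold psi
  apply Finset.measurable_fun_sum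
  intro i _
  apply Finset.measurable_fun_sum
  intro j _
  exact measurable_const.mul (((fi_measurable c r A i).comp measurable_fst).mul ((fi_measurable c r B j).comp measurable_snd))

lemma psi_bdd (c : ℝ) (r A B : ℕ) (H : ℝ → ℝ → ℝ) : ∃ M : ℝ, ∀ z, |psi c r A B H z| ≤ M := by
  refine ⟨∑ i ∈ range (2^A), ∑ j ∈ range (2^B), |H ((i:ℝ)/2^A) ((j:ℝ)/2^B)| * ((1 + |be c r A|) * (1 + |be c r B|)), ?_⟩
  intro z
  unfold psi
  refine (abs_sum_le_sum_abs _ _).trans (Finset.sum_le_sum (fun i _ => ?_))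
  refine (abs_sum_le_sum_abs _ _).trans (Finset.sum_le_sum (fun j _ => ?_))
  rw [abs_mul, abs_mul]
  gcongr
  · exact fi_abs c r A i z.1
  · exact fi_abs c r B j z.2

lemma psi_int (c : ℝ) (r A B : ℕ) (hr : 1 ≤ r) (H : ℝ → ℝ → ℝ) :
    ∫ z, psi c r A B H z ∂(mu1.prod mu1)
      = be c r A * be c r B * ∑ i ∈ range (2^A), ∑ j ∈ range (2^B), H ((i:ℝ)/2^A) ((j:ℝ)/2^B) := by
  unfold psi
  have hi : ∀ i j : ℕ, Integrable (fun z : ℝ × ℝ => H ((i:ℝ)/2^A) ((j:ℝ)/2^B) * (fi c r A i z.1 * fi c r B j z.2)) (mu1.prod mu1) :=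
    fun i j => ((fi_integrable c r A i).mul_prod (fi_integrable c r B j)).const_mul _
  rw [integral_finsetSum _ (fun i _ => integrable_finsetSum _ (fun j _ => hi i j)), Finset.mul_sum]
  apply Finset.sum_congr rfl
  intro i hi'
  rw [integral_finsetSum _ (fun j _ => hi i j), Finset.mul_sum]
  apply Finset.sum_congr rfl
  intro j hj'
  rw [integral_const_mul, integral_prod_mul (fun x => fi c r A i x) (fun y => fi c r B j y),
    fi_int c r A i hr (Finset.mem_range.mp hi'), fi_int c r B j hr (Finset.mem_range.mp hj')]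
  ring

lemma psi_conv {s : ℝ} (hs : 1 < s) (α c : ℝ) (r A B : ℕ) {H : ℝ → ℝ → ℝ} (hH : Dep A B H) (ξ : ℝ × ℝ)
    (h1 : GoodK r c (Int.fract (ξ.1 / (2 * Real.pi))) (fun t => F1 s α (2 * Real.pi * (Int.fract (ξ.1 / (2 * Real.pi)) - t))))
    (h2 : GoodK r c (Int.fract (ξ.2 / (2 * Real.pi))) (fun t => F1 s α (2 * Real.pi * (Int.fract (ξ.2 / (2 * Real.pi)) - t))))
    (h0 : H (Int.fract (ξ.1 / (2 * Real.pi))) (Int.fract (ξ.2 / (2 * Real.pi))) = 0) :
    conv (per2 (psi c r A B H)) (F2 s α) ξ = 0 := by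
  unfold conv avg
  rw [smul_eq_mul]
  have e1 : ∀ y : ℝ × ℝ, per2 (psi c r A B H) (ξ - y) * F2 s α y
      = ∑ i ∈ range (2^A), ∑ j ∈ range (2^B), H ((i:ℝ)/2^A) ((j:ℝ)/2^B) *
        ((per (fi c r A i) (ξ.1 - y.1) * per (fi c r B j) (ξ.2 - y.2)) * F2 s α y) := by
    intro y
    unfold per2 psi per
    rw [Finset.sum_mul]
    apply Finset.sum_congr rfl
    intro i _
    rw [Finset.sum_mul]
    apply Finset.sum_congr rfl
    intro j _
    simp only [Prod.fst_sub, Prod.snd_sub]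
    ring
  simp only [e1]
  have hint : ∀ i j : ℕ, IntegrableOn (fun y : ℝ × ℝ => H ((i:ℝ)/2^A) ((j:ℝ)/2^B) *
        ((per (fi c r A i) (ξ.1 - y.1) * per (fi c r B j) (ξ.2 - y.2)) * F2 s α y)) sq := by
    intro i j
    apply Integrable.const_mul
    apply (F2_integrable hs α).bdd_mul (c := (1 + |be c r A|) * (1 + |be c r B|))
    · exact (((per_measurable (fi_measurable c r A i)).comp (measurable_const.sub measurable_fst)).mul
        ((per_measurable (fi_measurable c r B j)).comp (measurable_const.sub measurable_snd))).aestronglyMeasurable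
    · refine Filter.Eventually.of_forall (fun y => ?_)
      rw [Real.norm_eq_abs, abs_mul]
      unfold per
      gcongr
      · exact fi_abs c r A i _
      · exact fi_abs c r B j _
  rw [integral_finsetSum _ (fun i _ => integrable_finsetSum _ (fun j _ => hint i j)), Finset.mul_sum]
  apply Finset.sum_eq_zero
  intro i hi
  rw [integral_finsetSum _ (fun j _ => hint i j), Finset.mul_sum]
  apply Finset.sum_eq_zero
  intro j hj
  rw [integral_const_mul, mul_left_comm, conv_prod s α (fi c r A i) (fi c r B j) ξ]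
  by_cases hk : i = ⌊(2:ℝ)^A * (Int.fract (ξ.1 / (2 * Real.pi)))⌋₊
  · by_cases hl : j = ⌊(2:ℝ)^B * (Int.fract (ξ.2 / (2 * Real.pi)))⌋₊
    · rw [hk, hl, ← hH.eval (Int.fract_nonneg _) (Int.fract_nonneg _), h0, zero_mul]
    · rw [fi_K h2 B j (Finset.mem_range.mp hj) hl]; ring
  · rw [fi_K h1 A i (Finset.mem_range.mp hi) hk]; ring

lemma sum_ai (r A : ℕ) {x : ℝ} (hx : x ∈ Set.Ico (0:ℝ) 1) : ∑ i ∈ range (2^A), |ai r A i x| = 1 := by
  rw [Finset.sum_eq_single (⌊(2:ℝ)^A * x⌋₊)]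
  · unfold ai
    rw [Set.indicator_of_mem ((mem_dy_iff hx.1).mpr rfl), tm_abs]
  · intro i _ hi
    unfold ai
    rw [Set.indicator_of_notMem, abs_zero]
    rw [mem_dy_iff hx.1]; exact fun h => hi h.symm
  · intro hi
    exact absurd (Finset.mem_range.mpr (floor_lt A hx.2)) hi

lemma psi_near (c : ℝ) (r A B : ℕ) {H : ℝ → ℝ → ℝ} (hH : Dep A B H) {h : ℝ} (hh : ∀ x y, |H x y| ≤ h)
    {z : ℝ × ℝ} (hz1 : z.1 ∈ Set.Ico (0:ℝ) 1) (hz2 : z.2 ∈ Set.Ico (0:ℝ) 1) :
    |psi c r A B H z - H z.1 z.2 * tm r A z.1 * tm r B z.2|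
      ≤ h * (|c| / (2^A)^r + |c| / (2^B)^r + c^2 / ((2^A)^r * (2^B)^r)) := by
  have h0 : 0 ≤ h := (abs_nonneg _).trans (hh 0 0)
  have e0 := dep_expand hH (tm r A) (tm r B) z.1 z.2 hz1 hz2
  have e1 : psi c r A B H z - H z.1 z.2 * tm r A z.1 * tm r B z.2
      = - (be c r B * ∑ i ∈ range (2^A), ∑ j ∈ range (2^B), H ((i:ℝ)/2^A) ((j:ℝ)/2^B) * ai r A i z.1)
        - (be c r A * ∑ i ∈ range (2^A), ∑ j ∈ range (2^B), H ((i:ℝ)/2^A) ((j:ℝ)/2^B) * ai r B j z.2)
        + be c r A * be c r B * ∑ i ∈ range (2^A), ∑ j ∈ range (2^B), H ((i:ℝ)/2^A) ((j:ℝ)/2^B) := by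
    rw [mul_assoc, e0]
    unfold psi
    simp only [Finset.mul_sum]
    rw [← Finset.sum_neg_distrib]
    rw [← Finset.sum_sub_distrib, ← Finset.sum_sub_distrib, ← Finset.sum_add_distrib]
    apply Finset.sum_congr rfl
    intro i _
    rw [← Finset.sum_neg_distrib]
    rw [← Finset.sum_sub_distrib, ← Finset.sum_sub_distrib, ← Finset.sum_add_distrib]
    apply Finset.sum_congr rfl
    intro j _
    unfold fi ai
    ring
  have b1 : |∑ i ∈ range (2^A), ∑ j ∈ range (2^B), H ((i:ℝ)/2^A) ((j:ℝ)/2^B) * ai r A i z.1| ≤ 2^B * h := by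
    calc _ ≤ ∑ i ∈ range (2^A), ∑ j ∈ range (2^B), h * |ai r A i z.1| := by
          refine (abs_sum_le_sum_abs _ _).trans (Finset.sum_le_sum (fun i _ => ?_))
          refine (abs_sum_le_sum_abs _ _).trans (Finset.sum_le_sum (fun j _ => ?_))
          rw [abs_mul]
          gcongr
          exact hh _ _
      _ = 2^B * h * ∑ i ∈ range (2^A), |ai r A i z.1| := by
          rw [Finset.mul_sum]
          apply Finset.sum_congr rfl
          intro i _
          rw [Finset.sum_const, card_range, nsmul_eq_mul]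
          push_cast; ring
      _ = _ := by rw [sum_ai r A hz1, mul_one]
  have b2 : |∑ i ∈ range (2^A), ∑ j ∈ range (2^B), H ((i:ℝ)/2^A) ((j:ℝ)/2^B) * ai r B j z.2| ≤ 2^A * h := by
    calc _ ≤ ∑ i ∈ range (2^A), ∑ j ∈ range (2^B), h * |ai r B j z.2| := by
          refine (abs_sum_le_sum_abs _ _).trans (Finset.sum_le_sum (fun i _ => ?_))
          refine (abs_sum_le_sum_abs _ _).trans (Finset.sum_le_sum (fun j _ => ?_))
          rw [abs_mul]
          gcongr
          exact hh _ _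
      _ = 2^A * h := by
          rw [Finset.sum_const, card_range, nsmul_eq_mul, ← Finset.mul_sum, sum_ai r B hz2]
          push_cast; ring
  have b3 : |∑ i ∈ range (2^A), ∑ j ∈ range (2^B), H ((i:ℝ)/2^A) ((j:ℝ)/2^B)| ≤ 2^A * (2^B * h) := by
    calc _ ≤ ∑ i ∈ range (2^A), ∑ j ∈ range (2^B), h := by
          refine (abs_sum_le_sum_abs _ _).trans (Finset.sum_le_sum (fun i _ => ?_))
          refine (abs_sum_le_sum_abs _ _).trans (Finset.sum_le_sum (fun j _ => ?_))
          exact hh _ _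
      _ = _ := by
          rw [Finset.sum_const, Finset.sum_const, card_range, card_range, nsmul_eq_mul, nsmul_eq_mul]
          push_cast; ring
  rw [e1]
  have hA : (0:ℝ) < 2^A := by positivity
  have hB : (0:ℝ) < 2^B := by positivity
  calc _ ≤ |be c r B| * (2^B * h) + |be c r A| * (2^A * h) + |be c r A| * |be c r B| * (2^A * (2^B * h)) := by
        refine (abs_add_le _ _).trans ?_
        refine add_le_add ((abs_sub _ _).trans ?_) ?_
        · rw [abs_neg, abs_mul, abs_mul]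
          gcongr
        · rw [abs_mul, abs_mul]
          gcongr
    _ = _ := by
        unfold be
        rw [abs_div, abs_div, abs_of_pos (pow_pos hA (r+1)), abs_of_pos (pow_pos hB (r+1)), ← sq_abs c]
        field_simp
        ring

end

end Pool.Agent.Helper150.Cub
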