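import Mathlib
import Pool.Agent.Helper150.Cub.Psi

set_option autoImplicit false

namespace Pool.Agent.Helper150.Cub

open MeasureTheory Finset Pool.Agent.Helper150.Walsh Pool.Agent.Helper150.WalshO

noncomputable section

/-- the fooling density -/
def Phi (c : ℝ) (r n o s J : ℕ) {m : ℕ} (u v : Fin m → ℝ) (z : ℝ × ℝ) : ℝ :=
  ∑ b ∈ range J, psi c r (o+s*b) (n-(o+s*b)) (emp n o s u v b) z
  + ∑ b ∈ range J, ∑ a ∈ range b, psi c r (o+s*b) (n-(o+s*a)) (hab r n o s u v a b) z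

lemma bdd_sum {ι : Type*} (S : Finset ι) (f : ι → ℝ × ℝ → ℝ) (h : ∀ i ∈ S, ∃ M : ℝ, ∀ z, |f i z| ≤ M) :
    ∃ M : ℝ, ∀ z, |∑ i ∈ S, f i z| ≤ M := by
  classical
  induction S using Finset.induction_on with
  | empty => exact ⟨0, fun z => by simp⟩
  | insert a S ha ih =>
    obtain ⟨M1, h1⟩ := h a (Finset.mem_insert_self _ _)
    obtain ⟨M2, h2⟩ := ih (fun i hi => h i (Finset.mem_insert_of_mem hi))
    refine ⟨M1 + M2, fun z => ?_⟩
    rw [Finset.sum_insert ha]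
    exact (abs_add_le _ _).trans (add_le_add (h1 z) (h2 z))

lemma Phi_measurable (c : ℝ) (r n o s J : ℕ) {m : ℕ} (u v : Fin m → ℝ) : Measurable (Phi c r n o s J u v) := by
  unfold Phi
  apply Measurable.add
  · exact Finset.measurable_fun_sum _ (fun b _ => psi_measurable _ _ _ _ _)
  · exact Finset.measurable_fun_sum _ (fun b _ => Finset.measurable_fun_sum _ (fun a _ => psi_measurable _ _ _ _ _))

lemma Phi_bdd (c : ℝ) (r n o s J : ℕ) {m : ℕ} (u v : Fin m → ℝ) : ∃ M : ℝ, ∀ z, |Phi c r n o s J u v z| ≤ M := by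
  obtain ⟨M1, h1⟩ := bdd_sum (range J) (fun b => psi c r (o+s*b) (n-(o+s*b)) (emp n o s u v b))
    (fun b _ => psi_bdd _ _ _ _ _)
  obtain ⟨M2, h2⟩ := bdd_sum (range J) (fun b z => ∑ a ∈ range b, psi c r (o+s*b) (n-(o+s*a)) (hab r n o s u v a b) z)
    (fun b _ => bdd_sum (range b) (fun a => psi c r (o+s*b) (n-(o+s*a)) (hab r n o s u v a b)) (fun a _ => psi_bdd _ _ _ _ _))
  refine ⟨M1 + M2, fun z => ?_⟩
  unfold Phi
  exact (abs_add_le _ _).trans (add_le_add (h1 z) (h2 z))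

lemma psi_integrable (c : ℝ) (r A B : ℕ) (H : ℝ → ℝ → ℝ) : Integrable (psi c r A B H) (mu1.prod mu1) := by
  obtain ⟨M, hM⟩ := psi_bdd c r A B H
  apply Integrable.of_bound (C := M) (psi_measurable c r A B H).aestronglyMeasurable
  exact Filter.Eventually.of_forall (fun x => by rw [Real.norm_eq_abs]; exact hM x)

lemma Phi_int (c : ℝ) (r n o s J : ℕ) (hr : 1 ≤ r) {m : ℕ} (u v : Fin m → ℝ) :
    ∫ z, Phi c r n o s J u v z ∂(mu1.prod mu1)
      = ∑ b ∈ range J, be c r (o+s*b) * be c r (n-(o+s*b)) *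
          ∑ i ∈ range (2^(o+s*b)), ∑ j ∈ range (2^(n-(o+s*b))), emp n o s u v b ((i:ℝ)/2^(o+s*b)) ((j:ℝ)/2^(n-(o+s*b)))
        + ∑ b ∈ range J, ∑ a ∈ range b, be c r (o+s*b) * be c r (n-(o+s*a)) *
          ∑ i ∈ range (2^(o+s*b)), ∑ j ∈ range (2^(n-(o+s*a))), hab r n o s u v a b ((i:ℝ)/2^(o+s*b)) ((j:ℝ)/2^(n-(o+s*a))) := by
  unfold Phi
  rw [integral_add (integrable_finsetSum _ (fun b _ => psi_integrable _ _ _ _ _))
    (integrable_finsetSum _ (fun b _ => integrable_finsetSum _ (fun a _ => psi_integrable _ _ _ _ _))),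
    integral_finsetSum _ (fun b _ => psi_integrable _ _ _ _ _),
    integral_finsetSum _ (fun b _ => integrable_finsetSum _ (fun a _ => psi_integrable _ _ _ _ _))]
  congr 1
  · exact Finset.sum_congr rfl (fun b _ => psi_int c r _ _ hr _)
  · apply Finset.sum_congr rfl
    intro b _
    rw [integral_finsetSum _ (fun a _ => psi_integrable _ _ _ _ _)]
    exact Finset.sum_congr rfl (fun a _ => psi_int c r _ _ hr _)

lemma Phi_int_lower (c : ℝ) (r n o s J : ℕ) (hr : 1 ≤ r) (hs : r + 2 ≤ s) (hJ : o + s * J ≤ n) {m : ℕ}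
    (hm : (m:ℝ) ≤ 2^n / 2) (u v : Fin m → ℝ) :
    c^2 / (2^n)^r * (J/3) ≤ ∫ z, Phi c r n o s J u v z ∂(mu1.prod mu1) := by
  rw [Phi_int c r n o s J hr u v]
  obtain ⟨κ, hκ⟩ : ∃ κ, κ = c^2 := ⟨_, rfl⟩
  have hκ0 : 0 ≤ κ := by rw [hκ]; positivity
  have hbb : ∀ A B : ℕ, be c r A * be c r B = κ / ((2^A)^(r+1) * (2^B)^(r+1)) := by
    intro A B; unfold be; rw [hκ]; field_simp
  have f1 : ∀ b ∈ range J, κ / (2^n)^r * (1/2) ≤ be c r (o+s*b) * be c r (n-(o+s*b)) *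
          ∑ i ∈ range (2^(o+s*b)), ∑ j ∈ range (2^(n-(o+s*b))), emp n o s u v b ((i:ℝ)/2^(o+s*b)) ((j:ℝ)/2^(n-(o+s*b))) := by
    intro b hb
    have hbJ := Finset.mem_range.mp hb
    have hsb : o + s * b ≤ n := by
      have : s * b ≤ s * J := Nat.mul_le_mul_left _ hbJ.le
      omega
    have hc := emp_count n o s b hsb u v
    have e2 : ((2:ℝ)^(o+s*b))^(r+1) * ((2:ℝ)^(n-(o+s*b)))^(r+1) = (2^n)^r * 2^n := by
      rw [← mul_pow, ← pow_add, show o+s*b + (n-(o+s*b)) = n by omega, pow_succ]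
    rw [hbb, e2]
    have h2n : (0:ℝ) < 2^n := by positivity
    calc κ / (2^n)^r * (1/2) = κ / ((2^n)^r * 2^n) * (2^n/2) := by field_simp
      _ ≤ _ := by
        gcongr
        linarith
  have f2 : ∀ b ∈ range J, ∀ a ∈ range b,
      - (κ / (2^n)^r * ((2:ℝ)^(b-(a+1)) * ((1/2:ℝ)^(s*r))^(b-a))) ≤ be c r (o+s*b) * be c r (n-(o+s*a)) *
          ∑ i ∈ range (2^(o+s*b)), ∑ j ∈ range (2^(n-(o+s*a))), hab r n o s u v a b ((i:ℝ)/2^(o+s*b)) ((j:ℝ)/2^(n-(o+s*a))) := by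
    intro b hb a ha
    have hbJ := Finset.mem_range.mp hb
    have hab' := Finset.mem_range.mp ha
    have hsb : o + s * b ≤ n := by
      have : s * b ≤ s * J := Nat.mul_le_mul_left _ hbJ.le
      omega
    have hsa : s * a ≤ s * b := Nat.mul_le_mul_left _ hab'.le
    rw [hbb]
    have hsum : - (2^(o+s*b) * (2^(n-(o+s*a)) * 2^(b-(a+1)))) ≤ ∑ i ∈ range (2^(o+s*b)), ∑ j ∈ range (2^(n-(o+s*a))), hab r n o s u v a b ((i:ℝ)/2^(o+s*b)) ((j:ℝ)/2^(n-(o+s*a))) := by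
      calc _ = ∑ i ∈ range (2^(o+s*b)), ∑ j ∈ range (2^(n-(o+s*a))), - (2:ℝ)^(b-(a+1)) := by
            simp only [Finset.sum_const, card_range, nsmul_eq_mul]
            push_cast
            ring
        _ ≤ _ := by
            apply Finset.sum_le_sum; intro i _
            apply Finset.sum_le_sum; intro j _
            exact (abs_le.mp (hab_abs r n o s u v a b ((i:ℝ)/2^(o+s*b)) ((j:ℝ)/2^(n-(o+s*a))))).1
    have e2 : ((2:ℝ)^(o+s*b))^(r+1) * ((2:ℝ)^(n-(o+s*a)))^(r+1)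
        = (2^n)^r * (2^(s*r))^(b-a) * (2^(o+s*b) * 2^(n-(o+s*a))) := by
      have h1 : (2:ℝ)^(o+s*b) * 2^(n-(o+s*a)) = 2^n * 2^(s*(b-a)) := by
        rw [← pow_add, ← pow_add]; congr 1
        rw [Nat.mul_sub]; omega
      rw [← mul_pow, pow_succ, h1, mul_pow]
      congr 2
      rw [← pow_mul, ← pow_mul]
      congr 1
      ring
    calc _ = κ / (((2:ℝ)^(o+s*b))^(r+1) * ((2:ℝ)^(n-(o+s*a)))^(r+1)) * (- (2^(o+s*b) * (2^(n-(o+s*a)) * 2^(b-(a+1))))) := by
          rw [e2, one_div, inv_pow, inv_pow]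
          have h1 : (2:ℝ)^(o+s*b) ≠ 0 := by positivity
          have h2 : (2:ℝ)^(n-(o+s*a)) ≠ 0 := by positivity
          field_simp
      _ ≤ _ := by
          gcongr
  have f3 : - ∑ _b ∈ range J, κ / (2^n)^r * (1/6) ≤ ∑ b ∈ range J, ∑ a ∈ range b, be c r (o+s*b) * be c r (n-(o+s*a)) *
          ∑ i ∈ range (2^(o+s*b)), ∑ j ∈ range (2^(n-(o+s*a))), hab r n o s u v a b ((i:ℝ)/2^(o+s*b)) ((j:ℝ)/2^(n-(o+s*a))) := by
    rw [← Finset.sum_neg_distrib]
    apply Finset.sum_le_sum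
    intro b hb
    refine le_trans ?_ (Finset.sum_le_sum (f2 b hb))
    rw [Finset.sum_neg_distrib, neg_le_neg_iff, ← Finset.mul_sum]
    gcongr
    apply geo_bound
    · positivity
    · have h3 : 3 ≤ s * r := by nlinarith
      calc (1/2:ℝ)^(s*r) ≤ (1/2:ℝ)^3 := pow_le_pow_of_le_one (by norm_num) (by norm_num) h3
        _ = 1/8 := by norm_num
  have f4 := Finset.sum_le_sum f1
  rw [Finset.sum_const, card_range, nsmul_eq_mul] at f3 f4
  rw [← hκ]
  have : κ / (2^n)^r * ((J:ℝ)/3) = J * (κ / (2^n)^r * (1/2)) - J * (κ / (2^n)^r * (1/6)) := by ring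
  rw [this]
  linarith

lemma geo_sum (b : ℕ) : (∑ a ∈ range b, (2:ℝ)^(b-(a+1))) + 1 = 2^b := by
  induction b with
  | zero => simp
  | succ b ih =>
    rw [Finset.sum_range_succ, Nat.sub_self, pow_zero]
    have e1 : ∑ x ∈ range b, (2:ℝ)^(b+1-(x+1)) = 2 * ∑ x ∈ range b, (2:ℝ)^(b-(x+1)) := by
      rw [Finset.mul_sum]
      apply Finset.sum_congr rfl
      intro x hx
      have := Finset.mem_range.mp hx
      have e2 : b+1-(x+1) = (b-(x+1)) + 1 := by omega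
      rw [e2, pow_succ]; ring
    rw [e1, pow_succ, ← ih]
    ring

lemma geo_sum2 (J : ℕ) : (∑ _b ∈ range J, (1:ℝ)) + ∑ b ∈ range J, ∑ a ∈ range b, (2:ℝ)^(b-(a+1)) ≤ 2^J := by
  rw [← Finset.sum_add_distrib]
  have : ∀ b ∈ range J, (1:ℝ) + ∑ a ∈ range b, (2:ℝ)^(b-(a+1)) = 2^b := by
    intro b _
    rw [add_comm]; exact geo_sum b
  rw [Finset.sum_congr rfl this]
  have h2 : ∑ b ∈ range J, (2:ℝ)^b = 2^J - 1 := by
    have := geom_sum_eq (show (2:ℝ) ≠ 1 by norm_num) J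
    rw [this]; norm_num
  rw [h2]; linarith

lemma Phi_near (c : ℝ) (r n o s J : ℕ) (hr : 1 ≤ r) (hs : r + 2 ≤ s) (ho : J ≤ o) (hJ : 2 * o + s * J ≤ n) {m : ℕ}
    (u v : Fin m → ℝ) {z : ℝ × ℝ} (hz1 : z.1 ∈ Set.Ico (0:ℝ) 1) (hz2 : z.2 ∈ Set.Ico (0:ℝ) 1) :
    |Phi c r n o s J u v z| ≤ (rp r n o s J u v z - 1) + 2 + (2 * |c| + c^2) := by
  have hJ' : o + s * J ≤ n := by omega
  obtain ⟨K, hK⟩ : ∃ K, K = 2 * |c| + c^2 := ⟨_, rfl⟩
  have hK0 : 0 ≤ K := by rw [hK]; positivity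
  have hdiff : |Phi c r n o s J u v z - (rp r n o s J u v z - 1)| ≤ K := by
    rw [WalshO.rp_sub_one]
    unfold Phi
    rw [add_sub_add_comm, ← Finset.sum_sub_distrib, ← Finset.sum_sub_distrib]
    simp only [← Finset.sum_sub_distrib]
    have hpw : ∀ A : ℕ, J ≤ A → |c| / ((2:ℝ)^A)^r ≤ |c| / 2^J := by
      intro A hA
      gcongr
      calc (2:ℝ)^J ≤ 2^A := pow_le_pow_right₀ (by norm_num) hA
        _ ≤ (2^A)^r := le_self_pow₀ (one_le_pow₀ (by norm_num)) (by omega)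
    have hpw2 : ∀ A B : ℕ, J ≤ A → c^2 / (((2:ℝ)^A)^r * ((2:ℝ)^B)^r) ≤ c^2 / 2^J := by
      intro A B hA
      gcongr
      calc (2:ℝ)^J ≤ 2^A := pow_le_pow_right₀ (by norm_num) hA
        _ ≤ (2^A)^r := le_self_pow₀ (one_le_pow₀ (by norm_num)) (by omega)
        _ ≤ (2^A)^r * (2^B)^r := le_mul_of_one_le_right (by positivity) (one_le_pow₀ (one_le_pow₀ (by norm_num)))
    have t1 : ∀ b ∈ range J, |psi c r (o+s*b) (n-(o+s*b)) (emp n o s u v b) z
        - emp n o s u v b z.1 z.2 * tm r (o+s*b) z.1 * tm r (n-(o+s*b)) z.2| ≤ K / 2^J * 1 := by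
      intro b hb
      have hbJ := Finset.mem_range.mp hb
      have hsb : s * b + s ≤ s * J := by
        have : s * (b+1) ≤ s * J := Nat.mul_le_mul_left _ hbJ
        rw [Nat.mul_succ] at this; omega
      refine (psi_near c r _ _ (emp_dep n o s u v b) (fun x y => emp_abs n o s u v b x y) hz1 hz2).trans ?_
      have a1 := hpw (o+s*b) (by omega)
      have a2 := hpw (n-(o+s*b)) (by omega)
      have a3 := hpw2 (o+s*b) (n-(o+s*b)) (by omega)
      have : K / 2^J * 1 = |c| / 2^J + |c| / 2^J + c^2 / 2^J := by rw [hK]; ring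
      rw [this]; linarith
    have t2 : ∀ b ∈ range J, ∀ a ∈ range b, |psi c r (o+s*b) (n-(o+s*a)) (hab r n o s u v a b) z
        - hab r n o s u v a b z.1 z.2 * tm r (o+s*b) z.1 * tm r (n-(o+s*a)) z.2| ≤ K / 2^J * 2^(b-(a+1)) := by
      intro b hb a ha
      have hbJ := Finset.mem_range.mp hb
      have hab' := Finset.mem_range.mp ha
      have hsb : s * b + s ≤ s * J := by
        have : s * (b+1) ≤ s * J := Nat.mul_le_mul_left _ hbJ
        rw [Nat.mul_succ] at this; omega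
      have hsa : s * a ≤ s * b := Nat.mul_le_mul_left _ hab'.le
      refine (psi_near c r _ _ (hab_dep r n o s J (by omega) hJ' u v a b hab' hbJ)
        (fun x y => hab_abs r n o s u v a b x y) hz1 hz2).trans ?_
      have a1 := hpw (o+s*b) (by omega)
      have a2 := hpw (n-(o+s*a)) (by omega)
      have a3 := hpw2 (o+s*b) (n-(o+s*a)) (by omega)
      have : K / 2^J * 2^(b-(a+1)) = 2^(b-(a+1)) * (|c| / 2^J + |c| / 2^J + c^2 / 2^J) := by rw [hK]; ring
      rw [this]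
      gcongr
    calc _ ≤ ∑ _b ∈ range J, K / 2^J * 1 + ∑ b ∈ range J, ∑ a ∈ range b, K / 2^J * 2^(b-(a+1)) := by
          refine (abs_add_le _ _).trans (add_le_add ?_ ?_)
          · exact (abs_sum_le_sum_abs _ _).trans (Finset.sum_le_sum t1)
          · refine (abs_sum_le_sum_abs _ _).trans (Finset.sum_le_sum (fun b hb => ?_))
            exact (abs_sum_le_sum_abs _ _).trans (Finset.sum_le_sum (t2 b hb))
      _ = K / 2^J * ((∑ _b ∈ range J, (1:ℝ)) + ∑ b ∈ range J, ∑ a ∈ range b, (2:ℝ)^(b-(a+1))) := by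
          rw [mul_add, Finset.mul_sum, Finset.mul_sum]
          simp only [Finset.mul_sum]
      _ ≤ K / 2^J * 2^J := by
          gcongr
          exact geo_sum2 J
      _ = K := by field_simp
  have hp := rp_nonneg r n o s J u v z
  have h1 : |rp r n o s J u v z - 1| ≤ (rp r n o s J u v z - 1) + 2 := by
    rw [abs_le]; constructor <;> linarith
  rw [← hK]
  calc |Phi c r n o s J u v z| = |(Phi c r n o s J u v z - (rp r n o s J u v z - 1)) + (rp r n o s J u v z - 1)| := by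
        congr 1; ring
    _ ≤ K + ((rp r n o s J u v z - 1) + 2) := (abs_add_le _ _).trans (add_le_add hdiff h1)
    _ = _ := by ring

lemma Phi_norm (c : ℝ) (r n o s J : ℕ) (hr : 1 ≤ r) (hs : r + 2 ≤ s) (ho : J ≤ o) (hJ : 2 * o + s * J ≤ n) {m : ℕ}
    (u v : Fin m → ℝ) : ∫ z, |Phi c r n o s J u v z| ∂(mu1.prod mu1) ≤ 2 + (2 * |c| + c^2) := by
  obtain ⟨i1, e1⟩ := rp_mean r n o s J hr (by omega) (by omega) u v
  calc _ ≤ ∫ z, ((rp r n o s J u v z - 1) + (2 + (2 * |c| + c^2))) ∂(mu1.prod mu1) := by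
        apply integral_mono_of_nonneg
        · exact Filter.Eventually.of_forall (fun z => abs_nonneg _)
        · exact i1.add (integrable_const _)
        · filter_upwards [ae_mem] with z hz
          have := Phi_near c r n o s J hr hs ho hJ u v hz.1 hz.2
          linarith
    _ = _ := by
        rw [integral_add i1 (integrable_const _), e1, integral_const]
        simp

/-- The fooling function. -/
theorem fooling (r : ℕ) (hr : 2 ≤ r) (α : ℝ) (k : ℤ) (hα : α = r + 2 * k) :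
    ∃ C : ℝ, 0 < C ∧ ∀ m : ℕ, 1 ≤ m → ∀ ξ : Fin m → ℝ × ℝ, ∃ Ψ : ℝ × ℝ → ℝ, Measurable Ψ ∧ (∃ M : ℝ, ∀ z, |Ψ z| ≤ M) ∧
      ∫ z, |Ψ z| ∂(mu1.prod mu1) ≤ 1 ∧ (∀ i, conv (per2 Ψ) (F2 r α) (ξ i) = 0) ∧
      C * Real.log m / (m:ℝ)^r ≤ ∫ z, Ψ z ∂(mu1.prod mu1) := by
  obtain ⟨c, hc, hg⟩ := goodK_F r hr α k hα
  have hr1 : (1:ℝ) < (r:ℝ) := by exact_mod_cast hr
  obtain ⟨L, hL⟩ : ∃ L, L = 2 + (2 * |c| + c^2) := ⟨_, rfl⟩
  have hL0 : 0 < L := by rw [hL]; positivity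
  have hl2 : 0 < Real.log 2 := Real.log_pos (by norm_num)
  refine ⟨c^2 / (3 * L * ((r+4) * Real.log 2) * (2^(r+6))^r), by positivity, ?_⟩
  intro m hm ξ
  have hm0 : (0:ℝ) < m := by exact_mod_cast hm
  obtain ⟨q, hq⟩ : ∃ q, q = Nat.clog 2 m := ⟨_, rfl⟩
  have hc1 : m ≤ 2^q := by rw [hq]; exact Nat.le_pow_clog (by norm_num) m
  have hc2 : 2^q ≤ 2 * m := by
    rcases Nat.lt_or_ge 1 m with h | h
    · have h3 : 2^(q-1) < m := by rw [hq]; exact Nat.pow_pred_clog_lt_self (by norm_num) h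
      have h4 : 1 ≤ q := by
        rw [hq]; exact Nat.succ_le_of_lt (Nat.clog_pos (by norm_num) h)
      have h5 : 2^q = 2 * 2^(q-1) := by
        rw [← pow_succ']; congr 1; omega
      omega
    · have : m = 1 := by omega
      subst this
      simp at hq
      subst hq
      norm_num
  obtain ⟨J, hJ⟩ : ∃ J, J = (q+1)/(r+4) + 1 := ⟨_, rfl⟩
  have hJ1 : q + 1 ≤ (r+4) * J := by
    have h11 := Nat.div_add_mod (q+1) (r+4)
    have h12 := Nat.mod_lt (q+1) (show 0 < r+4 by omega)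
    rw [hJ, Nat.mul_add, mul_one]; omega
  have hJ2 : (r+4) * J ≤ q + 1 + (r+4) := by
    have h11 := Nat.div_add_mod (q+1) (r+4)
    rw [hJ, Nat.mul_add, mul_one]; omega
  obtain ⟨n, hn⟩ : ∃ n, n = (r+4) * J := ⟨_, rfl⟩
  have hnJ : 2 * J + (r+2) * J ≤ n := by rw [hn]; ring_nf; rfl
  have hnJ' : J + (r+2) * J ≤ n := by omega
  have hmn : (m:ℝ) ≤ 2^n / 2 := by
    have h6 : (m:ℝ) ≤ 2^q := by exact_mod_cast hc1
    have h7 : (2:ℝ)^(q+1) ≤ 2^n := pow_le_pow_right₀ (by norm_num) (by omega)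
    rw [pow_succ] at h7
    linarith
  obtain ⟨u, hu⟩ : ∃ u : Fin m → ℝ, u = fun i => Int.fract ((ξ i).1 / (2 * Real.pi)) := ⟨_, rfl⟩
  obtain ⟨v, hv⟩ : ∃ v : Fin m → ℝ, v = fun i => Int.fract ((ξ i).2 / (2 * Real.pi)) := ⟨_, rfl⟩
  have hG1 : ∀ x : ℝ, GoodK r c (Int.fract (x / (2 * Real.pi))) (fun t => F1 r α (2 * Real.pi * (Int.fract (x / (2 * Real.pi)) - t))) :=
    fun x => hg _ ⟨Int.fract_nonneg _, Int.fract_lt_one _⟩
  have hmeas := Phi_measurable c r n J (r+2) J u v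
  obtain ⟨M, hM⟩ := Phi_bdd c r n J (r+2) J u v
  refine ⟨fun z => L⁻¹ * Phi c r n J (r+2) J u v z, hmeas.const_mul _, ⟨L⁻¹ * M, fun z => ?_⟩, ?_, ?_, ?_⟩
  · rw [abs_mul, abs_of_pos (inv_pos.mpr hL0)]
    gcongr
    exact hM z
  · simp only [abs_mul, abs_of_pos (inv_pos.mpr hL0)]
    rw [integral_const_mul]
    have := Phi_norm c r n J (r+2) J (by omega) le_rfl le_rfl hnJ u v
    rw [← hL] at this
    calc L⁻¹ * ∫ z, |Phi c r n J (r+2) J u v z| ∂(mu1.prod mu1) ≤ L⁻¹ * L := by gcongr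
      _ = 1 := by field_simp
  · intro i
    -- linearity of the convolution
    have hlin : conv (per2 (fun z => L⁻¹ * Phi c r n J (r+2) J u v z)) (F2 r α) (ξ i)
        = L⁻¹ * (∑ b ∈ range J, conv (per2 (psi c r (J+(r+2)*b) (n-(J+(r+2)*b)) (emp n J (r+2) u v b))) (F2 r α) (ξ i)
          + ∑ b ∈ range J, ∑ a ∈ range b, conv (per2 (psi c r (J+(r+2)*b) (n-(J+(r+2)*a)) (hab r n J (r+2) u v a b))) (F2 r α) (ξ i)) := by
      have ip : ∀ A B : ℕ, ∀ H : ℝ → ℝ → ℝ, IntegrableOn (fun y => per2 (psi c r A B H) (ξ i - y) * F2 r α y) sq := by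
        intro A B H
        obtain ⟨M', hM'⟩ := psi_bdd c r A B H
        exact conv_integrand hr1 α (psi_measurable c r A B H) hM' (ξ i)
      unfold conv avg
      simp only [smul_eq_mul]
      have e1 : ∀ y, per2 (fun z => L⁻¹ * Phi c r n J (r+2) J u v z) (ξ i - y) * F2 r α y
          = L⁻¹ * (∑ b ∈ range J, per2 (psi c r (J+(r+2)*b) (n-(J+(r+2)*b)) (emp n J (r+2) u v b)) (ξ i - y) * F2 r α y
          + ∑ b ∈ range J, ∑ a ∈ range b, per2 (psi c r (J+(r+2)*b) (n-(J+(r+2)*a)) (hab r n J (r+2) u v a b)) (ξ i - y) * F2 r α y) := by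
        intro y
        unfold per2 Phi
        rw [mul_assoc, add_mul, Finset.sum_mul, Finset.sum_mul]
        simp only [Finset.sum_mul]
      simp only [e1]
      rw [integral_const_mul, integral_add (integrable_finsetSum _ (fun b _ => ip _ _ _))
        (integrable_finsetSum _ (fun b _ => integrable_finsetSum _ (fun a _ => ip _ _ _))),
        integral_finsetSum _ (fun b _ => ip _ _ _),
        integral_finsetSum _ (fun b _ => integrable_finsetSum _ (fun a _ => ip _ _ _))]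
      have e2 : ∀ b ∈ range J, ∫ y in sq, ∑ a ∈ range b, per2 (psi c r (J+(r+2)*b) (n-(J+(r+2)*a)) (hab r n J (r+2) u v a b)) (ξ i - y) * F2 r α y
          = ∑ a ∈ range b, ∫ y in sq, per2 (psi c r (J+(r+2)*b) (n-(J+(r+2)*a)) (hab r n J (r+2) u v a b)) (ξ i - y) * F2 r α y :=
        fun b _ => integral_finsetSum _ (fun a _ => ip _ _ _)
      rw [Finset.sum_congr rfl e2]
      simp only [← Finset.mul_sum]
      ring
    rw [hlin, Finset.sum_eq_zero, Finset.sum_eq_zero, add_zero, mul_zero]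
    · intro b hb
      apply Finset.sum_eq_zero
      intro a ha
      refine psi_conv hr1 α c r _ _ (hab_dep r n J (r+2) J (by omega) hnJ' u v a b (Finset.mem_range.mp ha) (Finset.mem_range.mp hb)) (ξ i) (hG1 _) (hG1 _) ?_
      have := hab_node r n J (r+2) u v a b i
      rw [hu, hv] at this ⊢
      exact this
    · intro b _
      refine psi_conv hr1 α c r _ _ (emp_dep n J (r+2) u v b) (ξ i) (hG1 _) (hG1 _) ?_
      have := emp_node n J (r+2) u v b i
      rw [hu, hv] at this ⊢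
      exact this
  · rw [integral_const_mul]
    have hlow := Phi_int_lower c r n J (r+2) J (by omega) le_rfl hnJ' hmn u v
    refine le_trans ?_ (mul_le_mul_of_nonneg_left hlow (inv_pos.mpr hL0).le)
    have hJlow : Real.log m / ((r+4) * Real.log 2) ≤ (J:ℝ) := by
      have h9 : Real.log m ≤ q * Real.log 2 := by
        rw [← Real.log_pow]
        exact Real.log_le_log hm0 (by exact_mod_cast hc1)
      have h10 : (q:ℝ) ≤ (r+4) * J := by
        have : q ≤ (r+4) * J := by omega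
        exact_mod_cast this
      rw [div_le_iff₀ (by positivity)]
      calc Real.log m ≤ q * Real.log 2 := h9
        _ ≤ ((r+4) * J) * Real.log 2 := by gcongr
        _ = _ := by ring
    have hpow : ((2:ℝ)^n)^r ≤ (2^(r+6))^r * (m:ℝ)^r := by
      rw [← mul_pow]
      gcongr
      have h13 : ((2:ℝ)^q) ≤ 2 * m := by exact_mod_cast hc2
      calc (2:ℝ)^n ≤ 2^(q + (r+5)) := pow_le_pow_right₀ (by norm_num) (by omega)
        _ = 2^q * 2^(r+5) := by rw [pow_add]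
        _ ≤ 2 * m * 2^(r+5) := by gcongr
        _ = 2^(r+6) * m := by rw [show r+6 = (r+5)+1 by omega, pow_succ]; ring
    calc c^2 / (3 * L * ((r+4) * Real.log 2) * (2^(r+6))^r) * Real.log m / (m:ℝ)^r
        = L⁻¹ * (c^2 / ((2^(r+6))^r * (m:ℝ)^r) * ((Real.log m / ((r+4) * Real.log 2)) / 3)) := by
          field_simp
      _ ≤ L⁻¹ * (c^2 / (2^n)^r * ((J:ℝ)/3)) := by
          have hlm : 0 ≤ Real.log m := Real.log_nonneg (by exact_mod_cast hm)
          gcongr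

end

end Pool.Agent.Helper150.Cub
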